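import Mathlib

/-!
# MP_ee40c7_co: two parallel lines are not extremal for `k ≥ 4`

For every `k ≥ 4` and every `n ≥ 2k-3` such that `k-2` does not divide `n-2`, the set `S_n` does
not attain the infimum `f(k,n)`.
-/

namespace Pool.Agent.Results.MP_ee40c7_co.NotExtremal

open MeasureTheory Set

/-- The area (Lebesgue measure) of the convex hull of a finite set of points of the plane. -/
noncomputable def area (K : Finset (ℝ × ℝ)) : ℝ :=
  (volume (convexHull ℝ (K : Set (ℝ × ℝ)))).toReal

/-- `T_k(S)`: the largest area of the convex hull of a `k`-element subset of `S`. -/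
noncomputable def T (k : ℕ) (S : Finset (ℝ × ℝ)) : ℝ :=
  sSup {x | ∃ K ⊆ S, K.card = k ∧ area K = x}

/-- `t_k(S)`: the smallest positive area of the convex hull of a `k`-element subset of `S`. -/
noncomputable def t (k : ℕ) (S : Finset (ℝ × ℝ)) : ℝ :=
  sInf {x | ∃ K ⊆ S, K.card = k ∧ area K = x ∧ 0 < x}

/-- `f(k,n)`: the infimum of `T_k(S)/t_k(S)` over all `n`-point sets `S` of the plane that are not
all collinear. -/
noncomputable def f (k n : ℕ) : ℝ :=
  sInf {x | ∃ S : Finset (ℝ × ℝ), S.card = n ∧ ¬ Collinear ℝ (S : Set (ℝ × ℝ)) ∧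
    x = T k S / t k S}

open Classical in
/-- The set `S_n` on two parallel lines. -/
noncomputable def twoLines (n : ℕ) : Finset (ℝ × ℝ) :=
  (Finset.range ((n - 1) / 2 + 1)).image (fun j : ℕ => ((0 : ℝ), (j : ℝ))) ∪
    (Finset.range ((n - 2) / 2 + 1)).image (fun j : ℕ => ((1 : ℝ), (j : ℝ)))

/-! ### Areas -/

/-- The quadrangle with vertices `(0,a)`, `(0,b)`, `(1,c)`, `(1,d)`. -/
def quad (a b c d : ℝ) : Set (ℝ × ℝ) :=
  {p | 0 ≤ p.1 ∧ p.1 ≤ 1 ∧ (1 - p.1) * a + p.1 * c ≤ p.2 ∧ p.2 ≤ (1 - p.1) * b + p.1 * d}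

lemma isClosed_quad (a b c d : ℝ) : IsClosed (quad a b c d) := by
  unfold quad
  refine IsClosed.inter (isClosed_le continuous_const continuous_fst) ?_
  refine IsClosed.inter (isClosed_le continuous_fst continuous_const) ?_
  refine IsClosed.inter (isClosed_le ?_ continuous_snd) (isClosed_le continuous_snd ?_)
  · fun_prop
  · fun_prop

lemma convex_quad (a b c d : ℝ) : Convex ℝ (quad a b c d) := by
  rintro ⟨x, y⟩ ⟨h1, h2, h3, h4⟩ ⟨x', y'⟩ ⟨h1', h2', h3', h4'⟩ s r hs hr hsr
  simp only [Prod.smul_mk, smul_eq_mul, Prod.mk_add_mk, quad, mem_setOf_eq] at *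
  have hr' : r = 1 - s := by linarith
  refine ⟨by positivity, ?_, ?_, ?_⟩
  · nlinarith
  · have e1 := mul_le_mul_of_nonneg_left h3 hs
    have e2 := mul_le_mul_of_nonneg_left h3' hr
    subst hr'
    nlinarith
  · have e1 := mul_le_mul_of_nonneg_left h4 hs
    have e2 := mul_le_mul_of_nonneg_left h4' hr
    subst hr'
    nlinarith

lemma volume_quad (a b c d : ℝ) (hab : a ≤ b) (hcd : c ≤ d) :
    volume (quad a b c d) = ENNReal.ofReal (((b - a) + (d - c)) / 2) := by
  rw [Measure.volume_eq_prod, Measure.prod_apply (isClosed_quad a b c d).measurableSet]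
  have h1 : ∀ x : ℝ, volume (Prod.mk x ⁻¹' quad a b c d) =
      (Icc (0 : ℝ) 1).indicator (fun x => ENNReal.ofReal ((1 - x) * (b - a) + x * (d - c))) x := by
    intro x
    by_cases hx : x ∈ Icc (0 : ℝ) 1
    · rw [indicator_of_mem hx]
      have : Prod.mk x ⁻¹' quad a b c d = Icc ((1 - x) * a + x * c) ((1 - x) * b + x * d) := by
        ext y
        simp only [quad, mem_preimage, mem_setOf_eq, mem_Icc]
        constructor
        · rintro ⟨_, _, h3, h4⟩; exact ⟨h3, h4⟩
        · rintro ⟨h3, h4⟩; exact ⟨hx.1, hx.2, h3, h4⟩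
      rw [this, Real.volume_Icc]
      congr 1
      ring
    · rw [indicator_of_notMem hx]
      have : Prod.mk x ⁻¹' quad a b c d = ∅ := by
        ext y
        simp only [quad, mem_preimage, mem_setOf_eq, mem_empty_iff_false, iff_false]
        rintro ⟨h1, h2, _⟩
        exact hx ⟨h1, h2⟩
      rw [this, measure_empty]
  simp_rw [h1]
  rw [lintegral_indicator measurableSet_Icc]
  have hcont : Continuous (fun x : ℝ => (1 - x) * (b - a) + x * (d - c)) := by fun_prop
  rw [← ofReal_integral_eq_lintegral_ofReal]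
  · congr 1
    rw [integral_Icc_eq_integral_Ioc, ← intervalIntegral.integral_of_le zero_le_one]
    have h2 : ∀ x : ℝ, (1 - x) * (b - a) + x * (d - c) = (b - a) + x * ((d - c) - (b - a)) := by
      intro x; ring
    simp_rw [h2]
    rw [intervalIntegral.integral_add (by simp) (by
      apply Continuous.intervalIntegrable; fun_prop), intervalIntegral.integral_mul_const,
      integral_id]
    simp
    ring
  · exact hcont.continuousOn.integrableOn_Icc
  · rw [Filter.EventuallyLE, ae_restrict_iff' measurableSet_Icc]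
    refine Filter.Eventually.of_forall ?_
    intro x hx
    have e1 : 0 ≤ (1 - x) * (b - a) := mul_nonneg (by linarith [hx.2]) (by linarith)
    have e2 : 0 ≤ x * (d - c) := mul_nonneg hx.1 (by linarith)
    exact add_nonneg e1 e2

lemma volume_hull_ne_top (K : Finset (ℝ × ℝ)) :
    volume (convexHull ℝ (K : Set (ℝ × ℝ))) ≠ ⊤ :=
  (K.finite_toSet.isCompact_convexHull (𝕜 := ℝ)).measure_lt_top.ne

lemma area_nonneg (K : Finset (ℝ × ℝ)) : 0 ≤ area K := ENNReal.toReal_nonneg

lemma quad_subset (K : Finset (ℝ × ℝ)) (a b c d : ℝ) (hab : a ≤ b) (hcd : c ≤ d)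
    (h1 : ((0 : ℝ), a) ∈ K) (h2 : ((0 : ℝ), b) ∈ K) (h3 : ((1 : ℝ), c) ∈ K)
    (h4 : ((1 : ℝ), d) ∈ K) : quad a b c d ⊆ convexHull ℝ (K : Set (ℝ × ℝ)) := by
  rintro ⟨x, y⟩ ⟨hx0, hx1, hy0, hy1⟩
  simp only at hx0 hx1 hy0 hy1
  have hc := convex_convexHull ℝ (K : Set (ℝ × ℝ))
  have m1 := subset_convexHull ℝ (K : Set (ℝ × ℝ)) (Finset.mem_coe.2 h1)
  have m2 := subset_convexHull ℝ (K : Set (ℝ × ℝ)) (Finset.mem_coe.2 h2)
  have m3 := subset_convexHull ℝ (K : Set (ℝ × ℝ)) (Finset.mem_coe.2 h3)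
  have m4 := subset_convexHull ℝ (K : Set (ℝ × ℝ)) (Finset.mem_coe.2 h4)
  have lo : (x, (1 - x) * a + x * c) ∈ convexHull ℝ (K : Set (ℝ × ℝ)) := by
    have := hc m1 m3 (by linarith : (0 : ℝ) ≤ 1 - x) hx0 (by ring)
    convert this using 1
    ext
    · simp
    · simp
  have hi : (x, (1 - x) * b + x * d) ∈ convexHull ℝ (K : Set (ℝ × ℝ)) := by
    have := hc m2 m4 (by linarith : (0 : ℝ) ≤ 1 - x) hx0 (by ring)
    convert this using 1
    ext
    · simp
    · simp
  set p := (1 - x) * a + x * c with hp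
  set q := (1 - x) * b + x * d with hq
  rcases eq_or_lt_of_le (hy0.trans hy1) with h | h
  · have : y = p := le_antisymm (by linarith) hy0
    rw [this]
    exact lo
  · have hpq : 0 < q - p := by linarith
    have := hc lo hi (div_nonneg (by linarith : (0 : ℝ) ≤ q - y) hpq.le)
      (div_nonneg (by linarith : (0 : ℝ) ≤ y - p) hpq.le) (by field_simp; ring)
    convert this using 1
    ext
    · simp only [Prod.fst_add, Prod.smul_fst, smul_eq_mul]
      field_simp
      ring
    · simp only [Prod.snd_add, Prod.smul_snd, smul_eq_mul]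
      field_simp
      ring

lemma area_ge (K : Finset (ℝ × ℝ)) (a b c d : ℝ) (hab : a ≤ b) (hcd : c ≤ d)
    (h1 : ((0 : ℝ), a) ∈ K) (h2 : ((0 : ℝ), b) ∈ K) (h3 : ((1 : ℝ), c) ∈ K)
    (h4 : ((1 : ℝ), d) ∈ K) : ((b - a) + (d - c)) / 2 ≤ area K := by
  have h := measure_mono (μ := volume) (quad_subset K a b c d hab hcd h1 h2 h3 h4)
  rw [volume_quad a b c d hab hcd] at h
  unfold area
  rw [← ENNReal.ofReal_le_iff_le_toReal (volume_hull_ne_top K)]
  exact h

lemma area_le (K : Finset (ℝ × ℝ)) (a b c d : ℝ) (hab : a ≤ b) (hcd : c ≤ d)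
    (h : (K : Set (ℝ × ℝ)) ⊆ quad a b c d) : area K ≤ ((b - a) + (d - c)) / 2 := by
  have h1 := measure_mono (μ := volume) (convexHull_min h (convex_quad a b c d))
  rw [volume_quad a b c d hab hcd] at h1
  unfold area
  exact ENNReal.toReal_le_of_le_ofReal (by linarith) h1

lemma area_line (K : Finset (ℝ × ℝ)) (h : ∀ p ∈ K, p.1 = 0) : area K = 0 := by
  have h1 : convexHull ℝ (K : Set (ℝ × ℝ)) ⊆ ({0} : Set ℝ) ×ˢ (univ : Set ℝ) := by
    apply convexHull_min
    · intro p hp
      exact ⟨h p hp, mem_univ _⟩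
    · exact (convex_singleton 0).prod convex_univ
  have h2 : volume (convexHull ℝ (K : Set (ℝ × ℝ))) = 0 := by
    refine measure_mono_null h1 ?_
    rw [Measure.volume_eq_prod, Measure.prod_prod]
    simp
  unfold area
  rw [h2]
  rfl

/-! ### Finiteness -/

lemma finite_vals (k : ℕ) (S : Finset (ℝ × ℝ)) :
    {x | ∃ K ⊆ S, K.card = k ∧ area K = x}.Finite := by
  apply Set.Finite.subset ((S.powerset.finite_toSet).image area)
  rintro x ⟨K, hK, _, rfl⟩
  exact ⟨K, by simpa using hK, rfl⟩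

lemma le_T (k : ℕ) (S K : Finset (ℝ × ℝ)) (hK : K ⊆ S) (hc : K.card = k) : area K ≤ T k S :=
  le_csSup (finite_vals k S).bddAbove ⟨K, hK, hc, rfl⟩

lemma t_le (k : ℕ) (S K : Finset (ℝ × ℝ)) (hK : K ⊆ S) (hc : K.card = k) (hpos : 0 < area K) :
    t k S ≤ area K := by
  apply csInf_le
  · exact ⟨0, fun x hx => by obtain ⟨_, _, _, _, h⟩ := hx; exact h.le⟩
  · exact ⟨K, hK, hc, rfl, hpos⟩

lemma t_pos (k : ℕ) (S K : Finset (ℝ × ℝ)) (hK : K ⊆ S) (hc : K.card = k) (hpos : 0 < area K) :
    0 < t k S := by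
  have hfin : {x | ∃ K ⊆ S, K.card = k ∧ area K = x ∧ 0 < x}.Finite := by
    apply (finite_vals k S).subset
    rintro x ⟨K, h1, h2, h3, _⟩
    exact ⟨K, h1, h2, h3⟩
  have hne : {x | ∃ K ⊆ S, K.card = k ∧ area K = x ∧ 0 < x}.Nonempty :=
    ⟨area K, K, hK, hc, rfl, hpos⟩
  obtain ⟨_, _, _, _, h⟩ := hne.csInf_mem hfin
  exact h

/-! ### The competitor -/

/-- Positions of the points on the line. -/
def pos (q i : ℕ) : ℕ := i + i / q

lemma pos_strictMono (q : ℕ) : StrictMono (pos q) := by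
  intro i j hij
  unfold pos
  have := Nat.div_le_div_right (c := q) hij.le
  omega

lemma pos_add (q i j : ℕ) (hq : 0 < q) (hij : i + q ≤ j) : pos q i + (q + 1) ≤ pos q j := by
  unfold pos
  have h1 : (i + q) / q = i / q + 1 := Nat.add_div_right i hq
  have h2 := Nat.div_le_div_right (c := q) hij
  omega

open Classical in
/-- The competitor: `n - 1` points on a line and one point off the line. -/
noncomputable def comp (q n : ℕ) : Finset (ℝ × ℝ) :=
  (Finset.range (n - 1)).image (fun i : ℕ => ((0 : ℝ), (pos q i : ℝ))) ∪ {((1 : ℝ), (0 : ℝ))}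

lemma mem_comp (q n : ℕ) (p : ℝ × ℝ) : p ∈ comp q n ↔
    (∃ i < n - 1, p = ((0 : ℝ), (pos q i : ℝ))) ∨ p = ((1 : ℝ), (0 : ℝ)) := by
  classical
  unfold comp
  rw [Finset.mem_union, Finset.mem_image, Finset.mem_singleton]
  constructor
  · rintro (⟨i, hi, rfl⟩ | h)
    · left; exact ⟨i, Finset.mem_range.1 hi, rfl⟩
    · right; exact h
  · rintro (⟨i, hi, rfl⟩ | h)
    · left; exact ⟨i, Finset.mem_range.2 hi, rfl⟩
    · right; exact h

lemma pt_inj (q : ℕ) : Function.Injective (fun i : ℕ => ((0 : ℝ), (pos q i : ℝ))) := by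
  intro i j hij
  simp only [Prod.mk.injEq, true_and, Nat.cast_inj] at hij
  exact (pos_strictMono q).injective hij

lemma card_comp (q n : ℕ) (hn : 1 ≤ n) : (comp q n).card = n := by
  classical
  unfold comp
  rw [Finset.card_union_of_disjoint, Finset.card_image_of_injective _ (pt_inj q),
    Finset.card_range, Finset.card_singleton]
  · omega
  · rw [Finset.disjoint_singleton_right, Finset.mem_image]
    rintro ⟨i, _, h⟩
    simp at h

lemma not_collinear_aux (S : Finset (ℝ × ℝ)) (a b c : ℝ) (hab : a ≠ b) (h1 : ((0 : ℝ), a) ∈ S)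
    (h2 : ((0 : ℝ), b) ∈ S) (h3 : ((1 : ℝ), c) ∈ S) : ¬ Collinear ℝ (S : Set (ℝ × ℝ)) := by
  intro h
  rw [collinear_iff_of_mem (Finset.mem_coe.2 h1)] at h
  obtain ⟨v, hv⟩ := h
  obtain ⟨r, hr⟩ := hv _ (Finset.mem_coe.2 h2)
  obtain ⟨s, hs⟩ := hv _ (Finset.mem_coe.2 h3)
  have e1 := congrArg Prod.fst hr
  have e2 := congrArg Prod.snd hr
  have e3 := congrArg Prod.fst hs
  simp only [vadd_eq_add, Prod.fst_add, Prod.snd_add, Prod.smul_fst, Prod.smul_snd, smul_eq_mul,
    add_zero] at e1 e2 e3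
  rcases mul_eq_zero.1 e1.symm with h | h
  · rw [h] at e2
    apply hab
    linarith
  · rw [h] at e3
    linarith

/-- For every `k ≥ 4` and every `n ≥ 2k-3` such that `k-2` does not divide `n-2`, the infimum
`f(k,n)` is strictly smaller than `T_k(S_n)/t_k(S_n)`. -/
theorem result : ∀ k n : ℕ, 4 ≤ k → 2 * k - 3 ≤ n → ¬ (k - 2) ∣ (n - 2) →
    f k n < T k (twoLines n) / t k (twoLines n) := by
  classical
  intro k n hk hn hdvd
  obtain ⟨q, rfl⟩ : ∃ q, k = q + 2 := ⟨k - 2, by omega⟩
  have hq2 : 2 ≤ q := by omega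
  rw [show q + 2 - 2 = q by omega] at hdvd
  have hn' : 2 * q + 1 ≤ n := by omega
  -- every point of the competitor
  have h0comp : ∀ i, i < n - 1 → ((0 : ℝ), (pos q i : ℝ)) ∈ comp q n := fun i hi =>
    (mem_comp q n _).2 (Or.inl ⟨i, hi, rfl⟩)
  have h1comp : ((1 : ℝ), (0 : ℝ)) ∈ comp q n := (mem_comp q n _).2 (Or.inr rfl)
  -- upper bound for T
  have hT : T (q + 2) (comp q n) ≤ (pos q (n - 2) : ℝ) / 2 := by
    apply csSup_le
    · obtain ⟨K, hK, hKc⟩ := Finset.exists_subset_card_eq (s := comp q n) (n := q + 2)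
        (by rw [card_comp q n (by omega)]; omega)
      exact ⟨_, K, hK, hKc, rfl⟩
    · rintro _ ⟨K, hK, _, rfl⟩
      have := area_le K 0 (pos q (n - 2)) 0 0 (by positivity) (le_refl _) (by
        intro p hp
        rcases (mem_comp q n p).1 (hK hp) with ⟨i, hi, rfl⟩ | rfl
        · refine ⟨le_refl _, zero_le_one, ?_, ?_⟩
          · simp
          · simp only [sub_zero, one_mul, zero_mul, add_zero]
            exact_mod_cast (pos_strictMono q).monotone (by omega : i ≤ n - 2)
        · refine ⟨zero_le_one, le_refl _, ?_, ?_⟩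
          · simp
          · simp)
      linarith
  -- lower bound for t
  have hlow : ∀ K ⊆ comp q n, K.card = q + 2 → 0 < area K → ((q : ℝ) + 1) / 2 ≤ area K := by
    intro K hK hKc hpos
    have hapex : ((1 : ℝ), (0 : ℝ)) ∈ K := by
      by_contra h
      have := area_line K (by
        intro p hp
        rcases (mem_comp q n p).1 (hK hp) with ⟨i, _, rfl⟩ | rfl
        · rfl
        · exact absurd hp h)
      linarith
    -- the index set
    set I : Finset ℕ := (Finset.range (n - 1)).filter (fun i => ((0 : ℝ), (pos q i : ℝ)) ∈ K)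
      with hI
    have hIcard : I.card = q + 1 := by
      have h1 : K.erase ((1 : ℝ), (0 : ℝ)) = I.image (fun i : ℕ => ((0 : ℝ), (pos q i : ℝ))) := by
        ext p
        rw [Finset.mem_erase, Finset.mem_image]
        constructor
        · rintro ⟨hp1, hp2⟩
          rcases (mem_comp q n p).1 (hK hp2) with ⟨i, hi, rfl⟩ | h
          · exact ⟨i, by rw [hI, Finset.mem_filter]; exact ⟨Finset.mem_range.2 hi, hp2⟩, rfl⟩
          · exact absurd h hp1
        · rintro ⟨i, hi, rfl⟩
          rw [hI, Finset.mem_filter] at hi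
          refine ⟨?_, hi.2⟩
          simp
      have h2 := congrArg Finset.card h1
      rw [Finset.card_erase_of_mem hapex, Finset.card_image_of_injective _ (pt_inj q), hKc] at h2
      omega
    have hIne : I.Nonempty := by rw [← Finset.card_pos]; omega
    have hmin := I.min'_mem hIne
    have hmax := I.max'_mem hIne
    have hspread : I.min' hIne + q ≤ I.max' hIne := by
      have hsub : I ⊆ Finset.Icc (I.min' hIne) (I.max' hIne) := by
        intro i hi
        rw [Finset.mem_Icc]
        exact ⟨I.min'_le i hi, I.le_max' i hi⟩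
      have := Finset.card_le_card hsub
      rw [Nat.card_Icc, hIcard] at this
      omega
    have hpos' := pos_add q _ _ (by omega) hspread
    have hposR : (pos q (I.min' hIne) : ℝ) + (q + 1) ≤ (pos q (I.max' hIne) : ℝ) := by
      exact_mod_cast hpos'
    have := area_ge K (pos q (I.min' hIne)) (pos q (I.max' hIne)) 0 0
      (by linarith [(by positivity : (0 : ℝ) ≤ (q : ℝ) + 1)]) (le_refl _)
      (Finset.mem_filter.1 hmin).2 (Finset.mem_filter.1 hmax).2 hapex hapex
    linarith
  -- a subset of positive area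
  obtain ⟨K0, hK0, hK0c, hK0p⟩ : ∃ K ⊆ comp q n, K.card = q + 2 ∧ 0 < area K := by
    have h3 : ({((0 : ℝ), (pos q 0 : ℝ)), ((0 : ℝ), (pos q 1 : ℝ)), ((1 : ℝ), (0 : ℝ))} :
        Finset (ℝ × ℝ)) ⊆ comp q n := by
      intro p hp
      simp only [Finset.mem_insert, Finset.mem_singleton] at hp
      rcases hp with rfl | rfl | rfl
      · exact h0comp 0 (by omega)
      · exact h0comp 1 (by omega)
      · exact h1comp
    obtain ⟨K, hK1, hK2, hK3⟩ := Finset.exists_subsuperset_card_eq h3 (n := q + 2)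
      (Finset.card_le_three.trans (by omega)) (by rw [card_comp q n (by omega)]; omega)
    refine ⟨K, hK2, hK3, ?_⟩
    have h01 : (pos q 0 : ℝ) < (pos q 1 : ℝ) := by
      exact_mod_cast pos_strictMono q (by omega : 0 < 1)
    have := area_ge K (pos q 0) (pos q 1) 0 0 h01.le (le_refl _) (hK1 (by simp)) (hK1 (by simp))
      (hK1 (by simp)) (hK1 (by simp))
    linarith
  have ht : ((q : ℝ) + 1) / 2 ≤ t (q + 2) (comp q n) := by
    apply le_csInf
    · exact ⟨area K0, K0, hK0, hK0c, rfl, hK0p⟩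
    · rintro _ ⟨K, hK, hKc, rfl, hKp⟩
      exact hlow K hK hKc hKp
  -- the ratio for the competitor
  have hTnn : 0 ≤ T (q + 2) (comp q n) := (area_nonneg K0).trans (le_T _ _ _ hK0 hK0c)
  have hq0 : (0 : ℝ) < (q : ℝ) := by
    have : 0 < q := by omega
    exact_mod_cast this
  have hratio : T (q + 2) (comp q n) / t (q + 2) (comp q n) ≤ (pos q (n - 2) : ℝ) / (q + 1) := by
    have h1 : (0 : ℝ) < ((q : ℝ) + 1) / 2 := by positivity
    have h2 : 0 < t (q + 2) (comp q n) := lt_of_lt_of_le h1 ht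
    rw [div_le_div_iff₀ h2 (by positivity)]
    nlinarith
  have hf : f (q + 2) n ≤ T (q + 2) (comp q n) / t (q + 2) (comp q n) := by
    apply csInf_le
    · refine ⟨0, ?_⟩
      rintro _ ⟨S, _, _, rfl⟩
      apply div_nonneg
      · apply Real.sSup_nonneg
        rintro x ⟨K, _, _, rfl⟩
        exact area_nonneg K
      · apply Real.sInf_nonneg
        rintro x ⟨K, _, _, _, h⟩
        exact h.le
    · refine ⟨comp q n, card_comp q n (by omega), ?_, rfl⟩
      have h01 : (pos q 0 : ℝ) < (pos q 1 : ℝ) := by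
        exact_mod_cast pos_strictMono q (by omega : 0 < 1)
      exact not_collinear_aux _ _ _ _ h01.ne (h0comp 0 (by omega)) (h0comp 1 (by omega)) h1comp
  -- the two-line set
  have hm0 : ∀ j : ℕ, j ≤ (n - 1) / 2 → ((0 : ℝ), (j : ℝ)) ∈ twoLines n := by
    intro j hj
    unfold twoLines
    rw [Finset.mem_union, Finset.mem_image]
    left
    exact ⟨j, Finset.mem_range.2 (by omega), rfl⟩
  have hm1 : ∀ j : ℕ, j ≤ (n - 2) / 2 → ((1 : ℝ), (j : ℝ)) ∈ twoLines n := by
    intro j hj
    unfold twoLines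
    rw [Finset.mem_union, Finset.mem_image, Finset.mem_image]
    right
    exact ⟨j, Finset.mem_range.2 (by omega), rfl⟩
  have hcard2 : (twoLines n).card = n := by
    unfold twoLines
    rw [Finset.card_union_of_disjoint, Finset.card_image_of_injective,
      Finset.card_image_of_injective, Finset.card_range, Finset.card_range]
    · omega
    · intro i j hij
      simpa using hij
    · intro i j hij
      simpa using hij
    · rw [Finset.disjoint_left]
      intro p hp hp'
      rw [Finset.mem_image] at hp hp'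
      obtain ⟨i, _, rfl⟩ := hp
      obtain ⟨j, _, h⟩ := hp'
      simp at h
  have hT2 : ((n : ℝ) - 2) / 2 ≤ T (q + 2) (twoLines n) := by
    have h4 : ({((0 : ℝ), ((0 : ℕ) : ℝ)), ((0 : ℝ), (((n - 1) / 2 : ℕ) : ℝ)),
        ((1 : ℝ), ((0 : ℕ) : ℝ)), ((1 : ℝ), (((n - 2) / 2 : ℕ) : ℝ))} :
        Finset (ℝ × ℝ)) ⊆ twoLines n := by
      intro p hp
      simp only [Finset.mem_insert, Finset.mem_singleton] at hp
      rcases hp with rfl | rfl | rfl | rfl
      · exact hm0 0 (by omega)
      · exact hm0 _ (le_refl _)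
      · exact hm1 0 (by omega)
      · exact hm1 _ (le_refl _)
    obtain ⟨K, hK1, hK2, hK3⟩ := Finset.exists_subsuperset_card_eq h4 (n := q + 2)
      (Finset.card_le_four.trans (by omega)) (by rw [hcard2]; omega)
    refine le_trans ?_ (le_T _ _ K hK2 hK3)
    have := area_ge K ((0 : ℕ) : ℝ) (((n - 1) / 2 : ℕ) : ℝ) ((0 : ℕ) : ℝ) (((n - 2) / 2 : ℕ) : ℝ)
      (by exact_mod_cast Nat.zero_le _) (by exact_mod_cast Nat.zero_le _) (hK1 (by simp))
      (hK1 (by simp)) (hK1 (by simp)) (hK1 (by simp))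
    refine le_trans (le_of_eq ?_) this
    have h5 : (n - 1) / 2 + (n - 2) / 2 + 2 = n := by omega
    have h6 : (((n - 1) / 2 : ℕ) : ℝ) + (((n - 2) / 2 : ℕ) : ℝ) + 2 = n := by exact_mod_cast h5
    rw [Nat.cast_zero]
    linarith
  obtain ⟨K1, hK1, hK1c, hK1a⟩ : ∃ K ⊆ twoLines n, K.card = q + 2 ∧ area K = (q : ℝ) / 2 := by
    refine ⟨(Finset.range (q + 1)).image (fun j : ℕ => ((0 : ℝ), (j : ℝ))) ∪
      {((1 : ℝ), ((0 : ℕ) : ℝ))}, ?_, ?_, ?_⟩
    · intro p hp
      rw [Finset.mem_union, Finset.mem_image, Finset.mem_singleton] at hp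
      rcases hp with ⟨j, hj, rfl⟩ | rfl
      · exact hm0 j (by have := Finset.mem_range.1 hj; omega)
      · exact hm1 0 (by omega)
    · rw [Finset.card_union_of_disjoint, Finset.card_image_of_injective, Finset.card_range,
        Finset.card_singleton]
      · intro i j hij
        simpa using hij
      · rw [Finset.disjoint_singleton_right, Finset.mem_image]
        rintro ⟨i, _, h⟩
        simp at h
    · apply le_antisymm
      · have := area_le ((Finset.range (q + 1)).image (fun j : ℕ => ((0 : ℝ), (j : ℝ))) ∪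
          {((1 : ℝ), ((0 : ℕ) : ℝ))}) 0 q 0 0 (by positivity) (le_refl _) (by
          intro p hp
          rw [Finset.mem_coe, Finset.mem_union, Finset.mem_image, Finset.mem_singleton] at hp
          rcases hp with ⟨j, hj, rfl⟩ | rfl
          · refine ⟨le_refl _, zero_le_one, ?_, ?_⟩
            · simp
            · simp only [sub_zero, one_mul, zero_mul, add_zero]
              have := Finset.mem_range.1 hj
              exact_mod_cast (by omega : j ≤ q)
          · refine ⟨zero_le_one, le_refl _, ?_, ?_⟩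
            · simp
            · simp)
        linarith
      · have := area_ge ((Finset.range (q + 1)).image (fun j : ℕ => ((0 : ℝ), (j : ℝ))) ∪
          {((1 : ℝ), ((0 : ℕ) : ℝ))}) ((0 : ℕ) : ℝ) ((q : ℕ) : ℝ) ((0 : ℕ) : ℝ) ((0 : ℕ) : ℝ)
          (by exact_mod_cast Nat.zero_le _) (le_refl _)
          (by rw [Finset.mem_union, Finset.mem_image]; left
              exact ⟨0, Finset.mem_range.2 (by omega), rfl⟩)
          (by rw [Finset.mem_union, Finset.mem_image]; left
              exact ⟨q, Finset.mem_range.2 (by omega), rfl⟩)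
          (by rw [Finset.mem_union, Finset.mem_singleton]; right; rfl)
          (by rw [Finset.mem_union, Finset.mem_singleton]; right; rfl)
        rw [Nat.cast_zero] at this
        linarith
  have hK1p : 0 < area K1 := by rw [hK1a]; positivity
  have ht2 : t (q + 2) (twoLines n) ≤ (q : ℝ) / 2 := by
    rw [← hK1a]
    exact t_le _ _ _ hK1 hK1c hK1p
  have ht2p : 0 < t (q + 2) (twoLines n) := t_pos _ _ _ hK1 hK1c hK1p
  have hn2 : (2 : ℝ) ≤ n := by
    have : 2 ≤ n := by omega
    exact_mod_cast this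
  have hratio2 : ((n : ℝ) - 2) / q ≤ T (q + 2) (twoLines n) / t (q + 2) (twoLines n) := by
    rw [div_le_div_iff₀ hq0 ht2p]
    nlinarith
  -- comparison
  refine lt_of_le_of_lt (hf.trans hratio) (lt_of_lt_of_le ?_ hratio2)
  rw [div_lt_div_iff₀ (by positivity) hq0]
  have hint : pos q (n - 2) * q < (n - 2) * (q + 1) := by
    unfold pos
    have h1 := Nat.div_mul_le_self (n - 2) q
    have h2 : (n - 2) / q * q ≠ n - 2 := by
      intro h
      exact hdvd ⟨(n - 2) / q, by rw [mul_comm]; exact h.symm⟩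
    have h3 : (n - 2) / q * q < n - 2 := lt_of_le_of_ne h1 h2
    rw [add_mul, mul_add, mul_one]
    omega
  have hint' : ((pos q (n - 2) * q : ℕ) : ℝ) < (((n - 2) * (q + 1) : ℕ) : ℝ) := by
    exact_mod_cast hint
  push_cast [Nat.cast_sub (by omega : 2 ≤ n)] at hint'
  linarith

end Pool.Agent.Results.MP_ee40c7_co.NotExtremal
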